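import Mathlib

set_option autoImplicit false

namespace Pool.Agent.Results.MP_afce15_co.ExponentialBitrades

open Finset

variable {R C S : Type}

/-- Partial latin square: any two coordinates of a triple determine the third. -/
def IsPLS (P : Finset (R × C × S)) : Prop :=
  ∀ p ∈ P, ∀ q ∈ P, (p.1 = q.1 → p.2.1 = q.2.1 → p = q) ∧ (p.1 = q.1 → p.2.2 = q.2.2 → p = q) ∧
    (p.2.1 = q.2.1 → p.2.2 = q.2.2 → p = q)

/-- Latin bitrade `(W, B)`. -/
def IsBitrade (W B : Finset (R × C × S)) : Prop :=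
  W.Nonempty ∧ B.Nonempty ∧ IsPLS W ∧ IsPLS B ∧ Disjoint W B ∧
    (∀ r c, (∃ s, (r, c, s) ∈ W) ↔ ∃ s, (r, c, s) ∈ B) ∧
    (∀ r s, (∃ c, (r, c, s) ∈ W) ↔ ∃ c, (r, c, s) ∈ B) ∧
    (∀ c s, (∃ r, (r, c, s) ∈ W) ↔ ∃ r, (r, c, s) ∈ B)

/-- `P` embeds in the abelian group `G`: injective maps of the used rows, columns and symbols with
`α r + β c = γ s` for all triples of `P`. -/
def Embeds (P : Finset (R × C × S)) (G : Type) [AddCommGroup G] : Prop :=
  ∃ (α : R → G) (β : C → G) (γ : S → G),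
    Set.InjOn α {r | ∃ c s, (r, c, s) ∈ P} ∧ Set.InjOn β {c | ∃ r s, (r, c, s) ∈ P} ∧
    Set.InjOn γ {s | ∃ r c, (r, c, s) ∈ P} ∧ ∀ r c s, (r, c, s) ∈ P → α r + β c = γ s

/-- The orders of the finite abelian groups in which both `W` and `B` embed. -/
def orders (W B : Finset (R × C × S)) : Set ℕ :=
  {n | ∃ (G : Type) (_ : AddCommGroup G) (_ : Finite G), Nat.card G = n ∧ Embeds W G ∧ Embeds B G}

/-- `m(W, B)`, when it is finite. -/
noncomputable def m (W B : Finset (R × C × S)) : ℕ := sInf (orders W B)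

variable {k : ℕ}

/-- successor in the doubling chain -/
def nxt (i : Fin k) : Option (Fin k) := if h : (i : ℕ) + 1 < k then some ⟨i + 1, h⟩ else none

/-- the cells of the doubling chain -/
def cell : Option (Fin k × Fin 3) → Option (Fin k) × Option (Fin k) × Option (Fin k)
  | none => (none, none, none)
  | some (i, 0) => (some i, none, some i)
  | some (i, 1) => (none, some i, some i)
  | some (i, 2) => (some i, some i, nxt i)

/-- the values in `ℤ/2^k` -/
def val : Option (Fin k) → ZMod (2 ^ k)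
  | none => 0
  | some i => 2 ^ (i : ℕ)

lemma val_eq (x : Option (Fin k)) : ∃ n : ℕ, n < 2 ^ k ∧ val x = (n : ZMod (2 ^ k)) ∧
    (x = none ↔ n = 0) ∧ ∀ i, x = some i → n = 2 ^ (i : ℕ) := by
  cases x with
  | none => exact ⟨0, by positivity, by simp [val], by simp, fun i h => by simp at h⟩
  | some i =>
    refine ⟨2 ^ (i : ℕ), Nat.pow_lt_pow_right (by norm_num) i.2, by simp [val], by simp, ?_⟩
    intro j h
    simp only [Option.some.injEq] at h
    rw [h]

lemma val_inj : Function.Injective (val (k := k)) := by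
  intro x y hxy
  obtain ⟨a, ha, ha2, ha3, ha4⟩ := val_eq x
  obtain ⟨b, hb, hb2, hb3, hb4⟩ := val_eq y
  have hab : a = b := by
    rw [ha2, hb2] at hxy
    have h1 := congrArg ZMod.val hxy
    rwa [ZMod.val_natCast_of_lt ha, ZMod.val_natCast_of_lt hb] at h1
  cases x with
  | none =>
    symm
    rw [hb3, ← hab, ← ha3]
  | some i =>
    cases y with
    | none =>
      rw [ha3, hab, ← hb3]
    | some j =>
      have h1 := ha4 i rfl
      have h2 := hb4 j rfl
      rw [hab, h2] at h1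
      have h3 := Nat.pow_right_injective (le_refl 2) h1
      rw [Option.some.injEq]
      exact Fin.ext h3.symm

lemma cell_val (j : Option (Fin k × Fin 3)) :
    val (cell j).1 + val (cell j).2.1 = val (cell j).2.2 := by
  match j with
  | none => simp [cell, val]
  | some (i, 0) => simp [cell, val]
  | some (i, 1) => simp [cell, val]
  | some (i, 2) =>
    show (2 : ZMod (2 ^ k)) ^ (i : ℕ) + 2 ^ (i : ℕ) = val (nxt i)
    unfold nxt
    split_ifs with h
    · show (2 : ZMod (2 ^ k)) ^ (i : ℕ) + 2 ^ (i : ℕ) = 2 ^ ((i : ℕ) + 1)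
      ring
    · show (2 : ZMod (2 ^ k)) ^ (i : ℕ) + 2 ^ (i : ℕ) = 0
      have h1 : (i : ℕ) + 1 = k := by have := i.2; omega
      have h2 : (2 : ZMod (2 ^ k)) ^ k = 0 := by
        have := ZMod.natCast_self (2 ^ k)
        push_cast at this
        exact this
      calc (2 : ZMod (2 ^ k)) ^ (i : ℕ) + 2 ^ (i : ℕ) = 2 ^ ((i : ℕ) + 1) := by rw [pow_succ]; ring
        _ = 0 := by rw [h1, h2]

lemma cell_inj : Function.Injective (cell (k := k)) := by
  intro x y h
  match x, y with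
  | none, none => rfl
  | none, some (i, 0) => simp [cell] at h
  | none, some (i, 1) => simp [cell] at h
  | none, some (i, 2) => simp [cell] at h
  | some (i, 0), none => simp [cell] at h
  | some (i, 1), none => simp [cell] at h
  | some (i, 2), none => simp [cell] at h
  | some (i, 0), some (j, 0) => simp [cell] at h; rw [h]
  | some (i, 0), some (j, 1) => simp [cell] at h
  | some (i, 0), some (j, 2) => simp [cell] at h
  | some (i, 1), some (j, 0) => simp [cell] at h
  | some (i, 1), some (j, 1) => simp [cell] at h; rw [h]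
  | some (i, 1), some (j, 2) => simp [cell] at h
  | some (i, 2), some (j, 0) => simp [cell] at h
  | some (i, 2), some (j, 1) => simp [cell] at h
  | some (i, 2), some (j, 2) => simp [cell] at h; rw [h.1]

/-- rows, columns and symbols of the bitrade -/
abbrev El (k : ℕ) : Type := Option (Fin k) × ZMod 2

/-- the triples, shifted by `e` -/
def tri (e : ZMod 2) (q : Option (Fin k × Fin 3) × ZMod 2 × ZMod 2) : El k × El k × El k :=
  (((cell q.1).1, q.2.1), ((cell q.1).2.1, q.2.2), ((cell q.1).2.2, q.2.1 + q.2.2 + e))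

lemma tri_inj (e : ZMod 2) : Function.Injective (tri (k := k) e) := by
  rintro ⟨j, a, b⟩ ⟨j', a', b'⟩ h
  simp only [tri, Prod.mk.injEq] at h
  obtain ⟨⟨h1, h2⟩, ⟨h3, h4⟩, h5, _⟩ := h
  have h6 : cell j = cell j' := Prod.ext h1 (Prod.ext h3 h5)
  rw [cell_inj h6, h2, h4]

/-- the mates: `T 0` and `T 1` -/
def T (k : ℕ) (e : ZMod 2) : Finset (El k × El k × El k) :=
  univ.map ⟨tri e, tri_inj e⟩

lemma mem_T (e : ZMod 2) (t : El k × El k × El k) : t ∈ T k e ↔ ∃ q, tri e q = t := by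
  simp [T]

lemma card_T (e : ZMod 2) : (T k e).card = (k * 3 + 1) * 4 := by
  unfold T
  rw [card_map, card_univ]
  simp [Fintype.card_prod, Fintype.card_option]

/-- both mates embed in `ℤ/2^k × ℤ/2` -/
lemma embeds_T (e : ZMod 2) : Function.Injective (fun x : El k => ((val x.1, x.2 + e) : ZMod (2 ^ k) × ZMod 2)) ∧
    ∀ r c s, (r, c, s) ∈ T k e → ((val r.1, r.2 + e) : ZMod (2 ^ k) × ZMod 2) +
      (val c.1, c.2) = (val s.1, s.2) := by
  constructor
  · rintro ⟨x, a⟩ ⟨y, b⟩ h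
    simp only [Prod.mk.injEq] at h
    rw [val_inj h.1, add_right_cancel h.2]
  · intro r c s h
    obtain ⟨q, hq⟩ := (mem_T e _).mp h
    simp only [tri, Prod.mk.injEq] at hq
    obtain ⟨rfl, rfl, rfl⟩ := hq
    simp only [Prod.mk_add_mk, Prod.mk.injEq]
    exact ⟨cell_val q.1, by ring⟩

lemma inj2 : Function.Injective (fun x : El k => ((val x.1, x.2) : ZMod (2 ^ k) × ZMod 2)) := by
  rintro ⟨x, a⟩ ⟨y, b⟩ h
  simp only [Prod.mk.injEq] at h
  rw [val_inj h.1, h.2]

lemma Embeds_T (e : ZMod 2) : Embeds (T k e) (ZMod (2 ^ k) × ZMod 2) :=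
  ⟨fun x => (val x.1, x.2 + e), fun x => (val x.1, x.2), fun x => (val x.1, x.2),
    (embeds_T e).1.injOn, inj2.injOn, inj2.injOn, (embeds_T e).2⟩

lemma PLS_T (e : ZMod 2) : IsPLS (T k e) := by
  rintro ⟨r, c, s⟩ hp ⟨r', c', s'⟩ hq
  have h1 := (embeds_T e).2 r c s hp
  have h2 := (embeds_T e).2 r' c' s' hq
  have i1 := (embeds_T (k := k) e).1
  have i2 := inj2 (k := k)
  refine ⟨?_, ?_, ?_⟩
  · rintro rfl rfl
    simp only at *
    rw [h1] at h2
    rw [i2 h2]
  · rintro rfl rfl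
    simp only at *
    rw [← h2] at h1
    rw [i2 (add_left_cancel h1)]
  · rintro rfl rfl
    simp only at *
    rw [← h2] at h1
    rw [i1 (add_right_cancel h1)]

theorem bitrade : IsBitrade (T k 0) (T k 1) := by
  have hz : ∀ x : ZMod 2, x + 1 + 1 = x := by decide
  refine ⟨⟨tri 0 (none, 0, 0), (mem_T _ _).mpr ⟨_, rfl⟩⟩,
    ⟨tri 1 (none, 0, 0), (mem_T _ _).mpr ⟨_, rfl⟩⟩, PLS_T 0, PLS_T 1, ?_, ?_, ?_, ?_⟩
  · rw [Finset.disjoint_left]
    rintro t h0 h1
    obtain ⟨q, rfl⟩ := (mem_T _ _).mp h0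
    obtain ⟨q', hq'⟩ := (mem_T _ _).mp h1
    simp only [tri, Prod.mk.injEq] at hq'
    obtain ⟨⟨_, h2⟩, ⟨_, h3⟩, _, h4⟩ := hq'
    rw [h2, h3] at h4
    have : ∀ x : ZMod 2, x + 1 ≠ x + 0 := by decide
    exact this _ h4
  · intro r c
    constructor
    · rintro ⟨s, hs⟩
      obtain ⟨q, hq⟩ := (mem_T _ _).mp hs
      simp only [tri, Prod.mk.injEq] at hq
      exact ⟨_, (mem_T _ _).mpr ⟨q, by simp only [tri]; rw [hq.1, hq.2.1]⟩⟩
    · rintro ⟨s, hs⟩
      obtain ⟨q, hq⟩ := (mem_T _ _).mp hs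
      simp only [tri, Prod.mk.injEq] at hq
      exact ⟨_, (mem_T _ _).mpr ⟨q, by simp only [tri]; rw [hq.1, hq.2.1]⟩⟩
  · intro r s
    constructor
    · rintro ⟨c, hs⟩
      obtain ⟨⟨j, a, b⟩, hq⟩ := (mem_T _ _).mp hs
      simp only [tri, Prod.mk.injEq] at hq
      refine ⟨((cell j).2.1, b + 1), (mem_T _ _).mpr ⟨(j, a, b + 1), ?_⟩⟩
      simp only [tri, Prod.mk.injEq]
      refine ⟨hq.1, trivial, ?_⟩
      rw [← hq.2.2]
      congr 1
      have := hz (a + b)
      linear_combination this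
    · rintro ⟨c, hs⟩
      obtain ⟨⟨j, a, b⟩, hq⟩ := (mem_T _ _).mp hs
      simp only [tri, Prod.mk.injEq] at hq
      refine ⟨((cell j).2.1, b + 1), (mem_T _ _).mpr ⟨(j, a, b + 1), ?_⟩⟩
      simp only [tri, Prod.mk.injEq]
      refine ⟨hq.1, trivial, ?_⟩
      rw [← hq.2.2]
      congr 1
      ring
  · intro c s
    constructor
    · rintro ⟨r, hs⟩
      obtain ⟨⟨j, a, b⟩, hq⟩ := (mem_T _ _).mp hs
      simp only [tri, Prod.mk.injEq] at hq
      refine ⟨((cell j).1, a + 1), (mem_T _ _).mpr ⟨(j, a + 1, b), ?_⟩⟩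
      simp only [tri, Prod.mk.injEq]
      refine ⟨trivial, hq.2.1, ?_⟩
      rw [← hq.2.2]
      congr 1
      have := hz (a + b)
      linear_combination this
    · rintro ⟨r, hs⟩
      obtain ⟨⟨j, a, b⟩, hq⟩ := (mem_T _ _).mp hs
      simp only [tri, Prod.mk.injEq] at hq
      refine ⟨((cell j).1, a + 1), (mem_T _ _).mpr ⟨(j, a + 1, b), ?_⟩⟩
      simp only [tri, Prod.mk.injEq]
      refine ⟨trivial, hq.2.1, ?_⟩
      rw [← hq.2.2]
      congr 1
      ring

/-- every abelian group in which `T k 0` embeds has at least `2^k` elements -/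
theorem lower {G : Type} [AddCommGroup G] [Finite G] (h : Embeds (T k 0) G) :
    2 ^ k ≤ Nat.card G := by
  rcases Nat.eq_zero_or_pos k with h0 | hk
  · subst h0
    rw [pow_zero]
    exact Nat.card_pos
  obtain ⟨α, β, γ, hα, hβ, hγ, hrel⟩ := h
  have hcell : ∀ j, α ((cell j).1, 0) + β ((cell j).2.1, 0) = γ ((cell j).2.2, 0) := by
    intro j
    apply hrel
    rw [mem_T]
    exact ⟨(j, 0, 0), by simp [tri]⟩
  set x : Option (Fin k) → G := fun i => γ (i, 0) - γ (none, 0) with hx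
  have e0 : α (none, 0) + β (none, 0) = γ (none, 0) := hcell none
  have hdbl : ∀ i : Fin k, x (some i) + x (some i) = x (nxt i) := by
    intro i
    have e1 : α (some i, 0) + β (none, 0) = γ (some i, 0) := hcell (some (i, 0))
    have e2 : α (none, 0) + β (some i, 0) = γ (some i, 0) := hcell (some (i, 1))
    have e3 : α (some i, 0) + β (some i, 0) = γ (nxt i, 0) := hcell (some (i, 2))
    simp only [hx]
    rw [← e3]
    have : γ (some i, 0) - γ (none, 0) + (γ (some i, 0) - γ (none, 0)) =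
        (α (some i, 0) + β (none, 0)) + (α (none, 0) + β (some i, 0)) -
        (α (none, 0) + β (none, 0)) - γ (none, 0) := by
      rw [e1, e2, e0]
      abel
    rw [this]
    abel
  have hpow : ∀ n : ℕ, (h : n < k) → x (some ⟨n, h⟩) = 2 ^ n • x (some ⟨0, hk⟩) := by
    intro n
    induction n with
    | zero => intro h; simp
    | succ n ih =>
      intro h
      have h1 := hdbl ⟨n, by omega⟩
      rw [ih (by omega)] at h1
      have h2 : nxt (⟨n, by omega⟩ : Fin k) = some ⟨n + 1, h⟩ := by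
        unfold nxt
        rw [dif_pos h]
      rw [h2] at h1
      rw [← h1, ← two_nsmul, smul_smul, pow_succ, mul_comm]
  have hlast : 2 ^ k • x (some ⟨0, hk⟩) = 0 := by
    have h1 := hdbl ⟨k - 1, by omega⟩
    rw [hpow (k - 1) (by omega)] at h1
    have h2 : nxt (⟨k - 1, by omega⟩ : Fin k) = none := by
      unfold nxt
      rw [dif_neg]
      simp only
      omega
    rw [h2] at h1
    have h3 : x none = 0 := by simp [hx]
    rw [h3, ← two_nsmul, smul_smul] at h1
    have h4 : 2 * 2 ^ (k - 1) = 2 ^ k := by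
      rw [← pow_succ']
      congr 1
      omega
    rwa [h4] at h1
  have hne : ¬ 2 ^ (k - 1) • x (some ⟨0, hk⟩) = 0 := by
    rw [← hpow (k - 1) (by omega)]
    simp only [hx]
    intro h
    have h1 : γ (some ⟨k - 1, by omega⟩, 0) = γ (none, 0) := sub_eq_zero.mp h
    have h2 := hγ ⟨(some ⟨k - 1, by omega⟩, 0), (none, 0), (mem_T _ _).mpr
      ⟨(some (⟨k - 1, by omega⟩, 0), 0, 0), by simp [tri, cell]⟩⟩
      ⟨(none, 0), (none, 0), (mem_T _ _).mpr ⟨(none, 0, 0), by simp [tri, cell]⟩⟩ h1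
    simp at h2
  have : Fact (Nat.Prime 2) := ⟨Nat.prime_two⟩
  have hord : addOrderOf (x (some ⟨0, hk⟩)) = 2 ^ k := by
    have h4 : k - 1 + 1 = k := by omega
    have := addOrderOf_eq_prime_pow (n := k - 1) hne (by rw [h4]; exact hlast)
    rwa [h4] at this
  rw [← hord]
  exact Nat.le_of_dvd Nat.card_pos (addOrderOf_dvd_natCard _)

/-- There are latin bitrades `(W_n, B_n)` with `|W_n| → ∞`, `m(W_n, B_n) < ∞` and
`m(W_n, B_n) ≥ c ^ |W_n|` with `c = 2 ^ (1/16) > 1`. -/
theorem result :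
    ∃ c : ℝ, 1 < c ∧ ∃ (V : ℕ → Type) (W B : ∀ n, Finset (V n × V n × V n)),
      (∀ n, IsBitrade (W n) (B n)) ∧ (∀ n, n ≤ (W n).card) ∧ (∀ n, (orders (W n) (B n)).Nonempty) ∧
      (∀ n, c ^ (W n).card ≤ (m (W n) (B n) : ℝ)) ∧
      Filter.Tendsto (fun n => (W n).card) Filter.atTop Filter.atTop := by
  have hc : (1 : ℝ) < (2 : ℝ) ^ ((1 : ℝ) / 16) :=
    Real.one_lt_rpow (by norm_num) (by norm_num)
  have hcard : ∀ n, n ≤ (T (n + 1) 0).card := by
    intro n
    rw [card_T]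
    omega
  have hne : ∀ n, (orders (T (n + 1) 0) (T (n + 1) 1)).Nonempty := fun n =>
    ⟨_, ZMod (2 ^ (n + 1)) × ZMod 2, inferInstance, inferInstance, rfl, Embeds_T 0, Embeds_T 1⟩
  refine ⟨(2 : ℝ) ^ ((1 : ℝ) / 16), hc, fun n => El (n + 1), fun n => T (n + 1) 0,
    fun n => T (n + 1) 1, fun n => bitrade, hcard, hne, ?_,
    Filter.tendsto_atTop_mono hcard Filter.tendsto_id⟩
  intro n
  obtain ⟨G, _, _, hG, h1, _⟩ := Nat.sInf_mem (hne n)
  have h2 := lower h1
  have h3 : (2 : ℝ) ^ (n + 1) ≤ (m (T (n + 1) 0) (T (n + 1) 1) : ℝ) := by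
    unfold m
    rw [← hG]
    exact_mod_cast h2
  refine le_trans ?_ h3
  rw [card_T, ← Real.rpow_natCast, ← Real.rpow_mul (by norm_num), ← Real.rpow_natCast]
  apply Real.rpow_le_rpow_of_exponent_le (by norm_num)
  push_cast
  linarith

end Pool.Agent.Results.MP_afce15_co.ExponentialBitrades
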